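import Pool.Agent.Y624.UP.NZ2

set_option autoImplicit false

/-!
UP project (helper745), NZM (helper624), part 3: the three scales.
-/

namespace Pool.Agent.Y624.UP

open Filter Topology MeasureTheory Complex H370 Pool.Agent.Y745.UP

noncomputable section

lemma scale (e A' T T' : ℝ) (he : 0 < e) (hA' : 0 < A') (hT : 16 ≤ T) (hL : 8 ≤ Real.log T)
    (hL2 : 3 * (2 * (2:ℝ) ^ (A' + 1)) ≤ Real.log T) (h1 : T / 2 ≤ T') (h2 : T' ≤ 2 * T) (E' : Set ℝ)
    (hv : volume.real E' ≤ T' / Real.log T' ^ (A' + 1))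
    (hE : ∀ t ∈ Set.Icc T' (2 * T'), t ∉ E' →
      (NN riemannZeta (t - 6 / Real.log T') (t + 6 / Real.log T') : ℝ) ≤ Real.log T' ^ (e / 2)) :
    volume.real E' ≤ 1 / 3 * (T / Real.log T ^ A') ∧ ∀ t ∈ Set.Icc T' (2 * T'), t ∉ E' →
      (NN riemannZeta (t - 3 / Real.log T) (t + 3 / Real.log T) : ℝ) ≤ Real.log T ^ e := by
  have hT0 : 0 < T := by linarith
  have hT'0 : 0 < T' := by linarith
  have hlog2 : Real.log 2 < 1 := by
    have := Real.log_two_lt_d9
    linarith
  have hL0 : 0 < Real.log T := by linarith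
  have a1 : Real.log T / 2 ≤ Real.log T' := by
    have e1 : Real.log (T / 2) ≤ Real.log T' := Real.log_le_log (by linarith) h1
    rw [Real.log_div hT0.ne' two_ne_zero] at e1
    linarith
  have a2 : Real.log T' ≤ 2 * Real.log T := by
    have e1 : Real.log T' ≤ Real.log (2 * T) := Real.log_le_log hT'0 h2
    rw [Real.log_mul two_ne_zero hT0.ne'] at e1
    linarith
  have hL'0 : 0 < Real.log T' := by linarith
  constructor
  · refine hv.trans ?_
    have b1 : (Real.log T / 2) ^ (A' + 1) ≤ Real.log T' ^ (A' + 1) :=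
      Real.rpow_le_rpow (by linarith) a1 (by linarith)
    rw [Real.div_rpow hL0.le (by norm_num), Real.rpow_add hL0, Real.rpow_one] at b1
    set P : ℝ := Real.log T ^ A' with hP
    have hP0 : 0 < P := Real.rpow_pos_of_pos hL0 _
    set Q : ℝ := (2:ℝ) ^ (A' + 1) with hQ
    have hQ0 : 0 < Q := Real.rpow_pos_of_pos two_pos _
    calc T' / Real.log T' ^ (A' + 1) ≤ 2 * T / (P * Real.log T / Q) := by
          apply div_le_div₀ (by linarith) h2 (by positivity) b1
      _ ≤ 1 / 3 * (T / P) := by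
          rw [div_div_eq_mul_div, div_le_iff₀ (by positivity)]
          have e1 : 1 / 3 * (T / P) * (P * Real.log T) = 1 / 3 * (T * Real.log T) := by
            field_simp
          rw [e1]
          nlinarith
  · intro t ht htE
    have c1 := hE t ht htE
    have c2 : 3 / Real.log T ≤ 6 / Real.log T' := by
      rw [div_le_div_iff₀ hL0 hL'0]
      linarith
    have c3 : 6 / Real.log T' ≤ 2 := by
      rw [div_le_iff₀ hL'0]
      linarith
    have c4 := NN_mono (a := t - 3 / Real.log T) (b := t + 3 / Real.log T)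
      (a' := t - 6 / Real.log T') (b' := t + 6 / Real.log T') (by linarith [ht.1]) (by linarith)
      (by linarith)
    refine c4.trans (c1.trans ?_)
    calc Real.log T' ^ (e / 2) ≤ (Real.log T ^ 2) ^ (e / 2) := by
          apply Real.rpow_le_rpow hL'0.le _ (by linarith)
          nlinarith
      _ = Real.log T ^ e := by
          rw [← Real.rpow_natCast, ← Real.rpow_mul hL0.le]
          congr 1
          push_cast
          ring

theorem t_NZM : P_NZM := by
  intro e A' he hA'
  have hb := base (e / 2) (A' + 1) (by positivity)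
  have t1 : Tendsto (fun T : ℝ => T / 2) atTop atTop := tendsto_id.atTop_div_const (by norm_num)
  have t3 : Tendsto (fun T : ℝ => 2 * T) atTop atTop := tendsto_id.const_mul_atTop (by norm_num)
  filter_upwards [t1.eventually hb, hb, t3.eventually hb,
    Real.tendsto_log_atTop.eventually_ge_atTop (max 8 (3 * (2 * (2:ℝ) ^ (A' + 1)))),
    eventually_ge_atTop (16:ℝ)] with T h1 h2 h3 h4 h5
  have hL : 8 ≤ Real.log T := (le_max_left _ _).trans h4
  have hL2 : 3 * (2 * (2:ℝ) ^ (A' + 1)) ≤ Real.log T := (le_max_right _ _).trans h4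
  obtain ⟨E1, m1, s1, v1, n1⟩ := h1
  obtain ⟨E2, m2, s2, v2, n2⟩ := h2
  obtain ⟨E3, m3, s3, v3, n3⟩ := h3
  obtain ⟨w1, r1⟩ := scale e A' T (T / 2) he hA' h5 hL hL2 le_rfl (by linarith) E1 v1 n1
  obtain ⟨w2, r2⟩ := scale e A' T T he hA' h5 hL hL2 (by linarith) (by linarith) E2 v2 n2
  obtain ⟨w3, r3⟩ := scale e A' T (2 * T) he hA' h5 hL hL2 (by linarith) le_rfl E3 v3 n3
  refine ⟨(E1 ∪ (E2 ∪ E3)) ∩ Set.Icc (T / 2) (3 * T), (m1.union (m2.union m3)).inter measurableSet_Icc,
    Set.inter_subset_right, ?_, ?_⟩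
  · have hsub : E1 ∪ (E2 ∪ E3) ⊆ Set.Icc (T / 2) (4 * T) := by
      refine Set.union_subset (s1.trans ?_) (Set.union_subset (s2.trans ?_) (s3.trans ?_))
      · exact Set.Icc_subset_Icc (by linarith) (by linarith)
      · exact Set.Icc_subset_Icc (by linarith) (by linarith)
      · exact Set.Icc_subset_Icc (by linarith) (by linarith)
    have hfin : volume (E1 ∪ (E2 ∪ E3)) ≠ ⊤ :=
      ne_top_of_le_ne_top (by rw [Real.volume_Icc]; exact ENNReal.ofReal_ne_top) (measure_mono hsub)
    have u0 : volume.real ((E1 ∪ (E2 ∪ E3)) ∩ Set.Icc (T / 2) (3 * T)) ≤ volume.real (E1 ∪ (E2 ∪ E3)) :=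
      measureReal_mono Set.inter_subset_left hfin
    have u1 := measureReal_union_le (μ := volume) E1 (E2 ∪ E3)
    have u2 := measureReal_union_le (μ := volume) E2 E3
    linarith
  · intro t ht htE
    have hnE : t ∉ E1 ∧ t ∉ E2 ∧ t ∉ E3 := by
      refine ⟨fun h => htE ⟨Or.inl h, ht⟩, fun h => htE ⟨Or.inr (Or.inl h), ht⟩,
        fun h => htE ⟨Or.inr (Or.inr h), ht⟩⟩
    obtain ⟨x1, x2, x3⟩ := hnE
    rcases le_total t T with h | h
    · exact r1 t ⟨ht.1, by linarith⟩ x1
    · rcases le_total t (2 * T) with h' | h'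
      · exact r2 t ⟨h, h'⟩ x2
      · exact r3 t ⟨h', by linarith [ht.2]⟩ x3

end

end Pool.Agent.Y624.UP
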