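import Pool.Agent.Y732.LD.VSM2
import Pool.Agent.Y949.LD.G2M

set_option autoImplicit false

/-!
UP project (helper745), NZM (helper624), part 1: the prime sums with narrow coefficients are rarely large.
-/

namespace Pool.Agent.Y624.UP

open Filter Topology MeasureTheory Complex Pool.Agent.Y745.SW Pool.Agent.Y745.LD Pool.Agent.Y274.SW
open Pool.Agent.Y732.LD
open Pool.Agent.Y655.SW (SS VV pA_apply)
open Pool.Agent.Y41.SW (DP DP_pow pA_supp supp_pow)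
open Pool.Agent.Y949.LD (SS_le pA_nonneg pow_nn mean_pow markov)

noncomputable section

/-! ### the coefficients far away -/

lemma two_le_s : 2 ≤ Real.sqrt (2 * Real.pi) := by
  rw [show (2:ℝ) = Real.sqrt (2 ^ 2) by rw [Real.sqrt_sq (by norm_num)]]
  apply Real.sqrt_le_sqrt
  have := Real.pi_gt_three
  norm_num
  linarith

lemma far_bound (B h : ℝ → ℝ) (K M : ℝ) (hB : ∀ ξ, |B ξ| ≤ K) (hM : 0 ≤ M)
    (h1 : ∀ ξ ∈ Set.Icc (-1:ℝ) 1, |h ξ| ≤ M) :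
    |1 / Real.sqrt (2 * Real.pi) * ∫ ξ in (-1:ℝ)..1, B ξ * h ξ| ≤ K * M := by
  have hK : 0 ≤ K := (abs_nonneg _).trans (hB 0)
  have h2 : ‖∫ ξ in (-1:ℝ)..1, B ξ * h ξ‖ ≤ (K * M) * |1 - (-1:ℝ)| := by
    refine intervalIntegral.norm_integral_le_of_norm_le_const fun ξ hξ => ?_
    rw [Set.uIoc_of_le (by norm_num)] at hξ
    rw [Real.norm_eq_abs, abs_mul]
    exact mul_le_mul (hB ξ) (h1 ξ ⟨hξ.1.le, hξ.2⟩) (abs_nonneg _) hK
  rw [Real.norm_eq_abs] at h2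
  have h3 : |1 - (-1:ℝ)| = 2 := by norm_num
  rw [h3] at h2
  have hs := two_le_s
  have hs0 : 0 < Real.sqrt (2 * Real.pi) := by linarith
  rw [abs_mul, abs_of_pos (by positivity : 0 < 1 / Real.sqrt (2 * Real.pi))]
  have hKM : 0 ≤ K * M := mul_nonneg hK hM
  calc 1 / Real.sqrt (2 * Real.pi) * |∫ ξ in (-1:ℝ)..1, B ξ * h ξ|
      ≤ 1 / Real.sqrt (2 * Real.pi) * ((K * M) * 2) := mul_le_mul_of_nonneg_left h2 (by positivity)
    _ = (K * M) * (2 / Real.sqrt (2 * Real.pi)) := by ring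
    _ ≤ (K * M) * 1 := by
        refine mul_le_mul_of_nonneg_left ?_ hKM
        rw [div_le_one hs0]
        exact hs
    _ = K * M := mul_one _

lemma Gp_far (B : ℝ → ℝ) (K a y : ℝ) (hB : ∀ ξ, |B ξ| ≤ K) (ha : 0 ≤ a) (hy : 2 * a ≤ y) :
    |Gp B a 0 y| ≤ K * Real.exp (-y ^ 2 / 8) := by
  rw [Gp_eq_hp]
  refine far_bound B _ K _ hB (Real.exp_pos _).le fun ξ hξ => ?_
  rw [abs_of_nonneg (hp_nonneg _ _ _ _)]
  refine (hp_le _ _ _ _).trans (Real.exp_le_exp.2 ?_)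
  have h1 : ξ * a ≤ a := by nlinarith [hξ.2]
  have h2 : 0 ≤ y := by linarith
  have h3 : y / 2 ≤ -(0 + ξ * a - y) := by linarith
  have h4 : (y / 2) ^ 2 ≤ (-(0 + ξ * a - y)) ^ 2 := pow_le_pow_left₀ (by linarith) h3 2
  nlinarith

lemma Gm_far (B : ℝ → ℝ) (K a y : ℝ) (hB : ∀ ξ, |B ξ| ≤ K) (ha : 0 ≤ a) (hy : 2 * a ≤ y) :
    |Gm B a 0 y| ≤ K * Real.exp (-y ^ 2 / 8) := by
  rw [Gm_eq_hm]
  refine far_bound B _ K _ hB (Real.exp_pos _).le fun ξ hξ => ?_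
  rw [abs_of_nonneg (hm_nonneg _ _ _ _)]
  refine (hm_le _ _ _ _).trans (Real.exp_le_exp.2 ?_)
  have h1 : -a ≤ ξ * a := by nlinarith [hξ.1]
  have h2 : 0 ≤ y := by linarith
  have h3 : y / 2 ≤ 0 + ξ * a + y := by linarith
  have h4 : (y / 2) ^ 2 ≤ (0 + ξ * a + y) ^ 2 := pow_le_pow_left₀ (by linarith) h3 2
  nlinarith

/-! ### the rough integers -/

lemma vM_le (n : ℕ) (hn : 1 ≤ n) : ArithmeticFunction.vonMangoldt n * (Real.sqrt n)⁻¹ ≤ 2 := by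
  have hn0 : (0:ℝ) < n := by exact_mod_cast hn
  have hs : 0 < Real.sqrt n := Real.sqrt_pos.2 hn0
  have h1 : ArithmeticFunction.vonMangoldt n ≤ Real.log n := ArithmeticFunction.vonMangoldt_le_log
  have h2 : Real.log n = 2 * Real.log (Real.sqrt n) := by
    rw [Real.log_sqrt hn0.le]
    ring
  have h3 := Real.log_le_sub_one_of_pos hs
  rw [← div_eq_mul_inv, div_le_iff₀ hs]
  linarith

lemma rough_norm (cc : ℕ → ℂ) (g : ℕ → ℝ) (K c T : ℝ) (X : ℕ)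
    (hc : ∀ n, ‖cc n‖ ≤ ArithmeticFunction.vonMangoldt n)
    (hg : ∀ n : ℕ, Real.log T ^ c ≤ Real.log n → |g n| ≤ K * Real.exp (-(Real.log n) ^ 2 / 8))
    (hK : 0 ≤ K) (hT : 0 < T) (hX : (X : ℝ) ≤ T) (hLc : 0 ≤ Real.log T ^ c)
    (hL : 8 * Real.log T ≤ (Real.log T ^ c) ^ 2) (t : ℝ) :
    ‖∑ n ∈ Finset.Icc 1 X, b1 c T 0 (bb cc g) n * (n : ℂ) ^ (-(t : ℂ) * I)‖ ≤ 2 * K := by
  classical
  have hterm : ∀ n ∈ Finset.Icc 1 X, ‖b1 c T 0 (bb cc g) n * (n : ℂ) ^ (-(t : ℂ) * I)‖ ≤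
      2 * K * T⁻¹ := by
    intro n hn
    have hn1 : 1 ≤ n := (Finset.mem_Icc.1 hn).1
    have hpos : 0 ≤ 2 * K * T⁻¹ := by positivity
    rw [norm_mul, cpow_norm t n hn1, mul_one]
    unfold b1
    split_ifs with hR
    · rw [norm_mul, sh_norm 0 n hn1, mul_one]
      by_cases hv : ArithmeticFunction.vonMangoldt n = 0
      · have h1 : cc n = 0 := by
          have := hc n
          rw [hv] at this
          exact norm_le_zero_iff.1 this
        unfold bb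
        rw [h1, zero_mul, norm_zero]
        exact hpos
      · have hne : n ≠ 1 := by
          rintro rfl
          exact hv ArithmeticFunction.vonMangoldt_apply_one
        obtain ⟨p, hp, hpn⟩ := Nat.exists_prime_and_dvd hne
        have h2 := hR p hp hpn
        have hpn' : (p : ℝ) ≤ n := by exact_mod_cast Nat.le_of_dvd (by omega) hpn
        have h3 : Real.log T ^ c ≤ Real.log n := by
          have h4 : yc c T ≤ n := by linarith
          have h5 := Real.log_le_log (Real.exp_pos _ : 0 < yc c T) h4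
          rwa [Real.log_exp] at h5
        have h6 := hg n h3
        have h7 : Real.exp (-(Real.log n) ^ 2 / 8) ≤ T⁻¹ := by
          have h8 : (Real.log T ^ c) ^ 2 ≤ Real.log n ^ 2 := pow_le_pow_left₀ hLc h3 2
          calc Real.exp (-(Real.log n) ^ 2 / 8) ≤ Real.exp (-Real.log T) := by
                apply Real.exp_le_exp.2
                linarith
            _ = T⁻¹ := by rw [Real.exp_neg, Real.exp_log hT]
        unfold bb
        rw [norm_mul, Complex.norm_real, Real.norm_eq_abs, abs_mul, abs_of_nonneg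
          (inv_nonneg.2 (Real.sqrt_nonneg (n : ℝ)))]
        have h9 := vM_le n hn1
        calc ‖cc n‖ * ((Real.sqrt n)⁻¹ * |g n|)
            ≤ ArithmeticFunction.vonMangoldt n * ((Real.sqrt n)⁻¹ * (K * T⁻¹)) := by
              refine mul_le_mul (hc n) ?_ (by positivity) ArithmeticFunction.vonMangoldt_nonneg
              refine mul_le_mul_of_nonneg_left (h6.trans ?_) (by positivity)
              exact mul_le_mul_of_nonneg_left h7 hK
          _ = (ArithmeticFunction.vonMangoldt n * (Real.sqrt n)⁻¹) * (K * T⁻¹) := by ring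
          _ ≤ 2 * (K * T⁻¹) := mul_le_mul_of_nonneg_right h9 (by positivity)
          _ = 2 * K * T⁻¹ := by ring
    · rw [norm_zero]
      exact hpos
  refine (norm_sum_le _ _).trans ((Finset.sum_le_sum hterm).trans ?_)
  rw [Finset.sum_const, Nat.card_Icc, nsmul_eq_mul, Nat.add_sub_cancel]
  calc (X : ℝ) * (2 * K * T⁻¹) ≤ T * (2 * K * T⁻¹) := mul_le_mul_of_nonneg_right hX (by positivity)
    _ = 2 * K := by field_simp

/-! ### the small primes -/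

/-- real coefficients at the small primes -/
def fA (c T : ℝ) (h : ℕ → ℝ) : ArithmeticFunction ℝ :=
  ⟨fun n => if n.Prime ∧ (n : ℝ) ≤ yc c T then h n else 0, by simp [Nat.not_prime_zero]⟩

lemma fA_apply (c T : ℝ) (h : ℕ → ℝ) (n : ℕ) :
    fA c T h n = if n.Prime ∧ (n : ℝ) ≤ yc c T then h n else 0 := rfl

lemma fA_supp (c T : ℝ) (h : ℕ → ℝ) : ∀ n : ℕ, ⌊yc c T⌋₊ < n → fA c T h n = 0 := by
  intro n hn
  have : ¬ (n.Prime ∧ (n : ℝ) ≤ yc c T) := by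
    rintro ⟨_, h⟩
    have := Nat.le_floor h
    omega
  rw [fA_apply, if_neg this]

lemma fA_bound (c T W : ℝ) (h : ℕ → ℝ) (hh : ∀ n ∈ Pr c T, |h n| ≤ W * (Real.sqrt n)⁻¹) (n : ℕ) :
    |fA c T h n| ≤ W * pA (yc c T) n := by
  rw [fA_apply, pA_apply]
  split_ifs with h1
  · exact hh n ((Pool.Agent.Y732.LD.mem_Pr c T n).2 h1)
  · simp

lemma pow_bound {y W : ℝ} (f : ArithmeticFunction ℝ) (hf : ∀ n, |f n| ≤ W * pA y n) (hW : 0 ≤ W)
    (k n : ℕ) : |(f ^ k) n| ≤ W ^ k * (pA y ^ k) n := by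
  induction k generalizing n with
  | zero =>
    rw [pow_zero, pow_zero, pow_zero, one_mul, ArithmeticFunction.one_apply]
    split_ifs <;> norm_num
  | succ k ih =>
    rw [pow_succ, ArithmeticFunction.mul_apply, pow_succ (pA y), ArithmeticFunction.mul_apply,
      Finset.mul_sum]
    refine (Finset.abs_sum_le_sum_abs _ _).trans (Finset.sum_le_sum fun x _ => ?_)
    rw [abs_mul]
    calc |(f ^ k) x.1| * |f x.2| ≤ (W ^ k * (pA y ^ k) x.1) * (W * pA y x.2) :=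
          mul_le_mul (ih _) (hf _) (abs_nonneg _) (mul_nonneg (pow_nonneg hW _) (pow_nn _ _ _))
      _ = _ := by ring

lemma pow_sq {y W : ℝ} (hy : 0 ≤ y) (f : ArithmeticFunction ℝ) (hf : ∀ n, |f n| ≤ W * pA y n)
    (hW : 0 ≤ W) (k : ℕ) :
    ∑ n ∈ Finset.Icc 1 (⌊y⌋₊ ^ k), ((f ^ k) n) ^ 2 ≤ W ^ (2 * k) * ((k.factorial : ℝ) * VV y ^ k) := by
  calc ∑ n ∈ Finset.Icc 1 (⌊y⌋₊ ^ k), ((f ^ k) n) ^ 2
      ≤ ∑ n ∈ Finset.Icc 1 (⌊y⌋₊ ^ k), W ^ (2 * k) * ((pA y ^ k) n) ^ 2 := by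
        refine Finset.sum_le_sum fun n _ => ?_
        have h2 := pow_bound f hf hW k n
        calc ((f ^ k) n) ^ 2 = |(f ^ k) n| ^ 2 := (sq_abs _).symm
          _ ≤ (W ^ k * (pA y ^ k) n) ^ 2 := pow_le_pow_left₀ (abs_nonneg _) h2 2
          _ = _ := by ring
    _ = W ^ (2 * k) * SS y k := by rw [SS, Finset.mul_sum]
    _ ≤ _ := mul_le_mul_of_nonneg_left (SS_le hy k) (by positivity)

lemma DP_cont (f : ℕ → ℝ) (X : ℕ) : Continuous (DP f X) := by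
  unfold DP
  refine continuous_finsetSum _ fun n hn => ?_
  have hn0 : (n : ℂ) ≠ 0 := by
    have := (Finset.mem_Icc.1 hn).1
    exact_mod_cast (by omega : n ≠ 0)
  refine continuous_const.mul ?_
  exact Continuous.const_cpow (by fun_prop) (Or.inl hn0)

/-- the points where the sum is large -/
def Bad (f : ℕ → ℝ) (X k : ℕ) (M T : ℝ) : Set ℝ :=
  Set.Icc T (2 * T) ∩ {t | 1 < (‖DP f X t‖ / M) ^ (2 * k)}

lemma Bad_meas (f : ℕ → ℝ) (X k : ℕ) (M T : ℝ) : MeasurableSet (Bad f X k M T) := by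
  unfold Bad
  refine measurableSet_Icc.inter ?_
  exact (isOpen_lt continuous_const (((DP_cont f X).norm.div_const M).pow _)).measurableSet

lemma Bad_sub (f : ℕ → ℝ) (X k : ℕ) (M T : ℝ) : Bad f X k M T ⊆ Set.Icc T (2 * T) :=
  Set.inter_subset_left

lemma not_Bad (f : ℕ → ℝ) (X k : ℕ) (M T t : ℝ) (hk : 1 ≤ k) (hM : 0 < M)
    (ht : t ∈ Set.Icc T (2 * T)) (h : t ∉ Bad f X k M T) : ‖DP f X t‖ ≤ M := by
  by_contra hc
  apply h
  refine ⟨ht, ?_⟩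
  show 1 < (‖DP f X t‖ / M) ^ (2 * k)
  exact one_lt_pow₀ ((one_lt_div hM).2 (not_le.1 hc)) (by omega)

lemma Bad_vol (f : ArithmeticFunction ℝ) (c T W M : ℝ) (k : ℕ)
    (hf : ∀ n, |f n| ≤ W * pA (yc c T) n) (hs : ∀ n, ⌊yc c T⌋₊ < n → f n = 0) (hW : 0 ≤ W)
    (hM : 0 < M) (hT : 0 ≤ T)
    (hZ : 8 * ((⌊yc c T⌋₊ ^ k : ℕ) : ℝ) * (1 + Real.log ((⌊yc c T⌋₊ ^ k : ℕ) : ℝ)) ≤ T / 2) :
    volume.real (Bad f ⌊yc c T⌋₊ k M T) ≤
      2 * T * ((W / M) ^ (2 * k) * ((k.factorial : ℝ) * VV (yc c T) ^ k)) := by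
  have hy : 0 ≤ yc c T := (Real.exp_pos _).le
  have hc : Continuous fun t => (‖DP f ⌊yc c T⌋₊ t‖ / M) ^ (2 * k) :=
    ((DP_cont f ⌊yc c T⌋₊).norm.div_const M).pow _
  refine (markov hc (fun v => by positivity) T hT).trans ?_
  have h1 := mean_pow f ⌊yc c T⌋₊ hs k T (2 * T) (by linarith)
  have h2 := pow_sq hy f hf hW k
  have h3 : ∀ t : ℝ, (‖DP f ⌊yc c T⌋₊ t‖ / M) ^ (2 * k) =
      (M ^ (2 * k))⁻¹ * ‖DP f ⌊yc c T⌋₊ t‖ ^ (2 * k) := by
    intro t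
    rw [div_pow, div_eq_inv_mul]
  simp only [h3]
  rw [intervalIntegral.integral_const_mul]
  have h4 : 0 ≤ ∑ n ∈ Finset.Icc 1 (⌊yc c T⌋₊ ^ k), ((f ^ k) n) ^ 2 :=
    Finset.sum_nonneg fun n _ => sq_nonneg _
  have hMk : 0 < M ^ (2 * k) := pow_pos hM _
  calc (M ^ (2 * k))⁻¹ * ∫ t in T..(2 * T), ‖DP f ⌊yc c T⌋₊ t‖ ^ (2 * k)
      ≤ (M ^ (2 * k))⁻¹ * (2 * T * (W ^ (2 * k) * ((k.factorial : ℝ) * VV (yc c T) ^ k))) := by
        refine mul_le_mul_of_nonneg_left ?_ (by positivity)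
        refine h1.trans ?_
        refine mul_le_mul ?_ h2 h4 (by linarith)
        linarith
    _ = 2 * T * ((W / M) ^ (2 * k) * ((k.factorial : ℝ) * VV (yc c T) ^ k)) := by
        rw [div_pow]
        field_simp

/-- the sum over the small primes -/
lemma small_split (c T : ℝ) (b : ℕ → ℂ) (t : ℝ) :
    ∑ p ∈ Pr c T, b p * (p : ℂ) ^ (-(t : ℂ) * I) =
      DP (fA c T fun n => (b n).re) ⌊yc c T⌋₊ t + I * DP (fA c T fun n => (b n).im) ⌊yc c T⌋₊ t := by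
  classical
  unfold DP Pr
  rw [Finset.sum_filter, Finset.mul_sum, ← Finset.sum_add_distrib]
  refine Finset.sum_congr rfl fun n hn => ?_
  have hle : (n : ℝ) ≤ yc c T :=
    (Nat.le_floor_iff (show 0 ≤ yc c T from (Real.exp_pos _).le)).1 (Finset.mem_Icc.1 hn).2
  rw [fA_apply, fA_apply]
  by_cases hp : n.Prime
  · rw [if_pos hp, if_pos ⟨hp, hle⟩, if_pos ⟨hp, hle⟩]
    calc b n * (n : ℂ) ^ (-(t : ℂ) * I) = ((b n).re + (b n).im * I) * (n : ℂ) ^ (-(t : ℂ) * I) := by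
          rw [Complex.re_add_im]
      _ = _ := by ring
  · rw [if_neg hp, if_neg (fun h => hp h.1), if_neg (fun h => hp h.1)]
    simp

lemma b2_bound (cc : ℕ → ℂ) (g : ℕ → ℝ) (M c T : ℝ) (X : ℕ)
    (hc : ∀ n, ‖cc n‖ ≤ ArithmeticFunction.vonMangoldt n) (hg : ∀ n, |g n| ≤ M) (n : ℕ)
    (hn : n ∈ Pr c T) : ‖b2 X 0 (bb cc g) n‖ ≤ (M * Real.log T ^ c) * (Real.sqrt n)⁻¹ := by
  have hM : 0 ≤ M := (abs_nonneg _).trans (hg 0)
  have h1 := (Pool.Agent.Y732.LD.mem_Pr c T n).1 hn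
  have hn1 : 1 ≤ n := h1.1.one_lt.le
  have hn0 : (0:ℝ) < n := by exact_mod_cast h1.1.pos
  have h2 : Real.log n ≤ Real.log T ^ c := by
    rw [← Pool.Agent.Y949.LD.log_yc]
    exact Real.log_le_log hn0 h1.2
  have h3 : 0 ≤ Real.log n := Real.log_natCast_nonneg n
  unfold b2
  split_ifs
  · rw [norm_mul, sh_norm 0 n hn1, mul_one]
    refine (bb_norm cc g M hc hg n).trans ?_
    rw [ArithmeticFunction.vonMangoldt_apply_prime h1.1]
    calc Real.log n * (Real.sqrt n)⁻¹ * M ≤ Real.log T ^ c * (Real.sqrt n)⁻¹ * M := by gcongr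
      _ = _ := by ring
  · rw [norm_zero]
    have : 0 ≤ Real.log T ^ c := h3.trans h2
    positivity

/-- the whole prime sum, outside the bad sets -/
lemma DD_bound (cc : ℕ → ℂ) (g : ℕ → ℝ) (K M0 M c T : ℝ) (X k : ℕ)
    (hc : ∀ n, ‖cc n‖ ≤ ArithmeticFunction.vonMangoldt n) (hg0 : ∀ n, |g n| ≤ M0)
    (hg : ∀ n : ℕ, Real.log T ^ c ≤ Real.log n → |g n| ≤ K * Real.exp (-(Real.log n) ^ 2 / 8))
    (hK : 0 ≤ K) (hT : 0 < T) (hX : (X : ℝ) ≤ T) (hLc : 1 ≤ Real.log T ^ c)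
    (hL : 8 * Real.log T ≤ (Real.log T ^ c) ^ 2) (hM : 0 < M) (hk : 1 ≤ k) (t : ℝ)
    (ht : t ∈ Set.Icc T (2 * T))
    (h1 : t ∉ Bad (fA c T fun n => (b2 X 0 (bb cc g) n).re) ⌊yc c T⌋₊ k M T)
    (h2 : t ∉ Bad (fA c T fun n => (b2 X 0 (bb cc g) n).im) ⌊yc c T⌋₊ k M T) :
    ‖DD X (bb cc g) t‖ ≤ 2 * K + 2 * M + 24 * (M0 * Real.log T ^ c) := by
  have e := decomp c T 0 X (bb cc g) t
  rw [add_zero] at e
  rw [e, small_split]
  have r1 := rough_norm cc g K c T X hc hg hK hT hX (by linarith) hL t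
  have r3 := b3_norm cc g M0 c T 0 X hc hg0 hLc t
  have r21 := not_Bad _ _ _ _ _ _ hk hM ht h1
  have r22 := not_Bad _ _ _ _ _ _ hk hM ht h2
  refine norm_add₃_le.trans ?_
  have r2 := norm_add_le (DP (fA c T fun n => (b2 X 0 (bb cc g) n).re) ⌊yc c T⌋₊ t)
    (I * DP (fA c T fun n => (b2 X 0 (bb cc g) n).im) ⌊yc c T⌋₊ t)
  rw [norm_mul, Complex.norm_I, one_mul] at r2
  linarith

/-- the volume of the bad sets -/
lemma bad_vols (cc : ℕ → ℂ) (g : ℕ → ℝ) (M0 M c T : ℝ) (X k : ℕ)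
    (hc : ∀ n, ‖cc n‖ ≤ ArithmeticFunction.vonMangoldt n) (hg0 : ∀ n, |g n| ≤ M0)
    (hLc : 0 ≤ Real.log T ^ c) (hM : 0 < M) (hT : 0 ≤ T)
    (hZ : 8 * ((⌊yc c T⌋₊ ^ k : ℕ) : ℝ) * (1 + Real.log ((⌊yc c T⌋₊ ^ k : ℕ) : ℝ)) ≤ T / 2) :
    volume.real (Bad (fA c T fun n => (b2 X 0 (bb cc g) n).re) ⌊yc c T⌋₊ k M T) ≤
      2 * T * ((M0 * Real.log T ^ c / M) ^ (2 * k) * ((k.factorial : ℝ) * VV (yc c T) ^ k)) ∧
    volume.real (Bad (fA c T fun n => (b2 X 0 (bb cc g) n).im) ⌊yc c T⌋₊ k M T) ≤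
      2 * T * ((M0 * Real.log T ^ c / M) ^ (2 * k) * ((k.factorial : ℝ) * VV (yc c T) ^ k)) := by
  have hM0 : 0 ≤ M0 := (abs_nonneg _).trans (hg0 0)
  have hW : 0 ≤ M0 * Real.log T ^ c := mul_nonneg hM0 hLc
  constructor
  · refine Bad_vol _ c T _ M k (fA_bound c T _ _ fun n hn => ?_) (fA_supp c T _) hW hM hT hZ
    exact (Complex.abs_re_le_norm _).trans (b2_bound cc g M0 c T X hc hg0 n hn)
  · refine Bad_vol _ c T _ M k (fA_bound c T _ _ fun n hn => ?_) (fA_supp c T _) hW hM hT hZ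
    exact (Complex.abs_im_le_norm _).trans (b2_bound cc g M0 c T X hc hg0 n hn)

end

end Pool.Agent.Y624.UP
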