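import Pool.Agent.Y624.UP.NZ1
import Pool.Agent.Y210.LD.EFU
import Pool.Agent.Y745.LD.G1M
import Pool.Agent.Y624.LD.Pt
import Pool.Agent.Y745.UP.Defs

set_option autoImplicit false

/-!
UP project (helper745), NZM (helper624), part 2: intervals of length `12 / log T` rarely contain many zeros.
-/

namespace Pool.Agent.Y624.UP

open Filter Topology MeasureTheory Complex H370 Pool.Agent.Y745.SW Pool.Agent.Y745.LD Pool.Agent.Y274.SW
open Pool.Agent.Y732.LD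

open Pool.Agent.Y949.LD (ev_VV ev_pow ev_LL LL_tend)
open Pool.Agent.Y624.LD (Bg Bg_cont Bg_even Bg_le Mu_le Mu_nonneg NN_sum nz_le)

noncomputable section

theorem NN_le_nz {U1 U2 a b α β : ℝ} (hU1 : 1 ≤ U1) (ha : U1 ≤ a) (hb : b ≤ U2) (hα : α ≤ a)
    (hβ : b ≤ β) : (NN riemannZeta a b : ℝ) ≤ nz U1 U2 α β := by
  classical
  rw [NN_sum (by linarith)]
  unfold nz
  refine Finset.sum_le_sum_of_subset_of_nonneg ?_ fun s _ _ => Nat.cast_nonneg _
  intro s hs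
  rw [mem_Zf good_zeta (by linarith)] at hs
  rw [Finset.mem_filter, mem_Zf good_zeta hU1]
  obtain ⟨a1, a2, a3, a4, a5⟩ := hs
  exact ⟨⟨a1, a2, by linarith, by linarith, a5⟩, by linarith, by linarith⟩

theorem NN_mono {a b a' b' : ℝ} (ha : 1 ≤ a') (h1 : a' ≤ a) (h2 : b ≤ b') :
    (NN riemannZeta a b : ℝ) ≤ (NN riemannZeta a' b' : ℝ) := by
  classical
  rw [NN_sum (by linarith), NN_sum ha]
  refine Finset.sum_le_sum_of_subset_of_nonneg ?_ fun s _ _ => Nat.cast_nonneg _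
  intro s hs
  rw [mem_Zf good_zeta (by linarith)] at hs
  rw [mem_Zf good_zeta ha]
  obtain ⟨a1, a2, a3, a4, a5⟩ := hs
  exact ⟨a1, a2, by linarith, by linarith, a5⟩

/-- the local sum from the explicit formula -/
lemma St_re_le (cc : ℕ → ℂ) (B : ℝ → ℝ) (a U1 U2 L t S1 S2 S3 S4 : ℝ) (X : ℕ)
    (h0 : ‖St B a U1 U2 0 t - cexp (I * ((0:ℝ):ℂ) * t) * ((Mu B a L 0 : ℝ) - DPp cc B a 0 X t -
      DPm cc B a 0 X t)‖ ≤ S1)
    (h1 : |Mu B a L 0| ≤ S2) (h2 : ‖DD X (bb cc fun n => Gp B a 0 (Real.log n)) t‖ ≤ S3)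
    (h3 : ‖DD X (bb cc fun n => Gm B a 0 (Real.log n)) t‖ ≤ S4) :
    (St B a U1 U2 0 t).re ≤ S1 + (S2 + S3 + S4) := by
  have e1 : cexp (I * ((0:ℝ):ℂ) * t) = 1 := by
    rw [Complex.ofReal_zero, mul_zero, zero_mul, Complex.exp_zero]
  rw [e1, one_mul] at h0
  have h2' : ‖DPp cc B a 0 X t‖ ≤ S3 := h2
  have h3' : ‖DPm cc B a 0 X t‖ ≤ S4 := by
    rw [DPm_norm]
    exact h3
  have h1' : ‖((Mu B a L 0 : ℝ) : ℂ)‖ ≤ S2 := by
    rw [Complex.norm_real, Real.norm_eq_abs]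
    exact h1
  have h4 := norm_add_le (St B a U1 U2 0 t - (((Mu B a L 0 : ℝ) : ℂ) - DPp cc B a 0 X t -
    DPm cc B a 0 X t)) (((Mu B a L 0 : ℝ) : ℂ) - DPp cc B a 0 X t - DPm cc B a 0 X t)
  rw [sub_add_cancel] at h4
  have h5 := norm_sub_le (((Mu B a L 0 : ℝ) : ℂ) - DPp cc B a 0 X t) (DPm cc B a 0 X t)
  have h6 := norm_sub_le ((Mu B a L 0 : ℝ) : ℂ) (DPp cc B a 0 X t)
  have h7 := (abs_le.1 (Complex.abs_re_le_norm (St B a U1 U2 0 t))).2
  linarith

lemma XT_le (T : ℝ) (hT : 1 ≤ T) : (XT (1 / 4) T : ℝ) ≤ T := by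
  have h : (XT (1 / 4) T : ℝ) ≤ T ^ (1 - 1 / 4 / 4 : ℝ) := Nat.floor_le (by positivity)
  refine h.trans ?_
  calc T ^ (1 - 1 / 4 / 4 : ℝ) ≤ T ^ (1:ℝ) := Real.rpow_le_rpow_of_exponent_le hT (by norm_num)
    _ = T := Real.rpow_one T

/-- the arithmetic of the exceptional sets -/
lemma vol_arith (T P L R V : ℝ) (k : ℕ) (f : ℝ) (hT : 0 ≤ T) (hP : 0 < P) (hL : 0 < L) (hR : 0 < R)
    (hV0 : 0 ≤ V) (hV : V ≤ R ^ 2) (hf : 0 ≤ f) (hfL : 32 * f ≤ L) (hk : P * L ≤ R ^ (2 * k)) :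
    2 * T * ((R ^ 2 / R ^ 4) ^ (2 * k) * (f * V ^ k)) ≤ T / (16 * P) := by
  have e1 : (R ^ 2 / R ^ 4) ^ (2 * k) = 1 / (R ^ (2 * k) * R ^ (2 * k)) := by
    have : R ^ 2 / R ^ 4 = 1 / R ^ 2 := by field_simp
    rw [this, div_pow, one_pow, ← pow_mul, ← pow_add]
    congr 2
    ring
  have e2 : V ^ k ≤ R ^ (2 * k) := by
    rw [pow_mul]
    exact pow_le_pow_left₀ hV0 hV k
  have hQ : 0 < R ^ (2 * k) := by positivity
  rw [e1]
  calc 2 * T * (1 / (R ^ (2 * k) * R ^ (2 * k)) * (f * V ^ k))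
      ≤ 2 * T * (1 / (R ^ (2 * k) * R ^ (2 * k)) * (f * R ^ (2 * k))) := by gcongr
    _ = 2 * T * f / R ^ (2 * k) := by field_simp
    _ ≤ 2 * T * f / (P * L) := by
        apply div_le_div_of_nonneg_left (by positivity) (by positivity) hk
    _ ≤ T / (16 * P) := by
        rw [div_le_div_iff₀ (by positivity) (by positivity)]
        have : 0 ≤ T * P := by positivity
        nlinarith

/-- the final arithmetic -/
lemma fin_arith (R Cc K1 Q : ℝ) (hR : 4 ≤ R) (hC : 0 ≤ Cc) (hK : K1 = 6 * (57 + Cc) + 1)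
    (hQ : K1 * R ^ 8 ≤ Q) :
    6 * (Cc * 1 + (R ^ 8 + (2 * R + 2 * R ^ 4 + 24 * R ^ 2) + (2 * R + 2 * R ^ 4 + 24 * R ^ 2))) + 1 ≤ Q := by
  refine le_trans ?_ hQ
  rw [hK]
  have h1 : 1 ≤ R := by linarith
  have p1 : R ≤ R ^ 8 := by
    calc R = R ^ 1 := (pow_one R).symm
      _ ≤ R ^ 8 := pow_le_pow_right₀ h1 (by norm_num)
  have p2 : R ^ 2 ≤ R ^ 8 := pow_le_pow_right₀ h1 (by norm_num)
  have p4 : R ^ 4 ≤ R ^ 8 := pow_le_pow_right₀ h1 (by norm_num)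
  have p0 : 1 ≤ R ^ 8 := one_le_pow₀ h1
  have pc : Cc * 1 ≤ Cc * R ^ 8 := mul_le_mul_of_nonneg_left p0 hC
  nlinarith

theorem base (e0 A' : ℝ) (he0 : 0 < e0) : ∀ᶠ T : ℝ in atTop, ∃ E : Set ℝ,
    MeasurableSet E ∧ E ⊆ Set.Icc T (2 * T) ∧ volume.real E ≤ T / Real.log T ^ A' ∧
    ∀ t ∈ Set.Icc T (2 * T), t ∉ E →
      (NN riemannZeta (t - 6 / Real.log T) (t + 6 / Real.log T) : ℝ) ≤ Real.log T ^ e0 := by
  classical
  obtain ⟨e, he, he1, hee0⟩ : ∃ e : ℝ, 0 < e ∧ e ≤ 1 / 2 ∧ e < e0 := by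
    refine ⟨min e0 1 / 2, ?_, ?_, ?_⟩
    · have := lt_min he0 one_pos
      linarith
    · have := min_le_right e0 1
      linarith
    · have := min_le_left e0 1
      linarith
  obtain ⟨c, hcd⟩ : ∃ c : ℝ, c = 1 - 3 * e / 4 := ⟨_, rfl⟩
  have hc0 : 0 < c := by rw [hcd]; linarith
  have hc1 : c < 1 := by rw [hcd]; linarith
  obtain ⟨A1, hA1, hA1'⟩ : ∃ A1 : ℝ, 0 < A1 ∧ A' + 1 ≤ A1 :=
    ⟨|A'| + 1, by positivity, by linarith [le_abs_self A']⟩
  obtain ⟨D0, hD0, hG⟩ := Pool.Agent.Y745.LD.t_G1M 1 A1 one_pos hA1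
  obtain ⟨cc, hcc, C0, T0, hC0, hT0, hef⟩ := explicit_formula good_zeta
  obtain ⟨C1, hC1, hE⟩ := Pool.Agent.Y210.LD.t_EFU (1 / 4) (by norm_num) (by norm_num)
  obtain ⟨k, hk1, hk⟩ : ∃ k : ℕ, 1 ≤ k ∧ A1 ≤ e / 4 * k := by
    refine ⟨⌈A1 / (e / 4)⌉₊ + 1, by omega, ?_⟩
    have := Nat.le_ceil (A1 / (e / 4))
    rw [div_le_iff₀ (by positivity)] at this
    push_cast
    nlinarith
  set Cc : ℝ := C1 * (1 + |C0|) with hCc
  have hCc0 : 0 ≤ Cc := by positivity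
  obtain ⟨K1, hK1⟩ : ∃ K1 : ℝ, K1 = 6 * (57 + Cc) + 1 := ⟨_, rfl⟩
  have t1 := Real.tendsto_log_atTop
  have g1 := t1.eventually ((tendsto_rpow_atTop (show 0 < e0 - e by linarith)).eventually_ge_atTop K1)
  have g2 := t1.eventually ((tendsto_rpow_atTop (show 0 < 1 - 3 * e / 2 by linarith)).eventually_ge_atTop
    (8:ℝ))
  have g3 := t1.eventually_ge_atTop (max 8 (32 * (k.factorial : ℝ)))
  have g5 := t1.eventually ((tendsto_rpow_atTop he).eventually_ge_atTop (6:ℝ))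
  have g7 : ∀ᶠ T : ℝ in atTop, 16 * Real.log T ^ (A' + 1) ≤ T := by
    have h2 := (isLittleO_log_rpow_rpow_atTop (A' + 1) one_pos).bound (show (0:ℝ) < 1 / 16 by norm_num)
    filter_upwards [h2, eventually_ge_atTop (1:ℝ)] with x hx hx1
    rw [Real.norm_of_nonneg (Real.rpow_nonneg (Real.log_nonneg hx1) _), Real.rpow_one,
      Real.norm_of_nonneg (by linarith)] at hx
    linarith
  filter_upwards [hG D0 le_rfl, nz_le e D0 he (by linarith) hD0, hE cc C0, ev_VV c hc0 hc1,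
    ev_pow c hc1, ev_LL (e / 4) 2 (by positivity) (by norm_num),
    LL_tend.eventually_ge_atTop (k : ℝ), g1, g2, g3, g5, g7, eventually_ge_atTop T0]
    with T hG hnz hE hVV hpw hLLe hLLk h1 h2 h3 h5 h7 hTT0
  obtain ⟨hGm, hGv⟩ := hG
  obtain ⟨⟨hR4, ha1, ha16, hL3, hT10⟩, hnz⟩ := hnz
  obtain ⟨U1, U2, u1, u2, u3, u4, hf⟩ := hef T hTT0
  have hefd : EFD cc C0 T U1 U2 := ⟨hcc, u1, u2, u3, u4, hf⟩
  have hT : 0 < T := by linarith
  have hT1 : 1 ≤ T := by linarith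
  have hX := XT_le T hT1
  have hPc := hpw k (by linarith)
  have hEt := hE U1 U2 hefd
  have hnzt := hnz U1 U2 u1 u4
  have hL8 : 8 ≤ Real.log T := (le_max_left _ _).trans h3
  have hLk : 32 * (k.factorial : ℝ) ≤ Real.log T := (le_max_right _ _).trans h3
  have hL0 : 0 < Real.log T := by linarith
  have hL1 : 1 ≤ Real.log T := by linarith
  -- powers of the logarithm
  obtain ⟨R, hRd⟩ : ∃ R : ℝ, R = Real.log T ^ (e / 8) := ⟨_, rfl⟩
  obtain ⟨b, hbd⟩ : ∃ b : ℝ, b = Real.log T ^ (1 - e) := ⟨_, rfl⟩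
  have hb1 : 1 ≤ b := by rw [hbd]; exact Real.one_le_rpow hL1 (by linarith)
  have hb0 : 0 < b := by linarith
  have hRn : ∀ n : ℕ, R ^ n = Real.log T ^ (e / 8 * n) := by
    intro n
    rw [hRd, ← Real.rpow_natCast, ← Real.rpow_mul hL0.le]
  have hLc : Real.log T ^ c = R * b * R := by
    rw [hRd, hbd, ← Real.rpow_add hL0, ← Real.rpow_add hL0, hcd]
    congr 1
    ring
  have hLe : Real.log T ^ e = R ^ 8 := by
    rw [hRn]
    congr 1
    push_cast
    ring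
  have hLe4 : Real.log T ^ (e / 4) = R ^ 2 := by
    rw [hRn]
    congr 1
    push_cast
    ring
  have hLb : Real.log T / b = R ^ 8 := by
    rw [← hLe, hbd, div_eq_iff (Real.rpow_pos_of_pos hL0 _).ne', ← Real.rpow_add hL0]
    nth_rw 1 [← Real.rpow_one (Real.log T)]
    congr 1
    ring
  have hQ1 : K1 * R ^ 8 ≤ Real.log T ^ e0 := by
    have e1 : Real.log T ^ e0 = Real.log T ^ (e0 - e) * Real.log T ^ e := by
      rw [← Real.rpow_add hL0]
      congr 1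
      ring
    rw [e1, hLe]
    exact mul_le_mul_of_nonneg_right h1 (by rw [← hLe]; positivity)
  have hcc2 : 8 * Real.log T ≤ (Real.log T ^ c) ^ 2 := by
    have e1 : (Real.log T ^ c) ^ 2 = Real.log T ^ (1 - 3 * e / 2) * Real.log T := by
      rw [← Real.rpow_natCast, ← Real.rpow_mul hL0.le]
      nth_rw 3 [← Real.rpow_one (Real.log T)]
      rw [← Real.rpow_add hL0, hcd]
      congr 1
      push_cast
      ring
    rw [e1]
    exact mul_le_mul_of_nonneg_right h2 hL0.le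
  obtain ⟨P, hP⟩ : ∃ P : ℝ, P = Real.log T ^ A' := ⟨_, rfl⟩
  have hP0 : 0 < P := by rw [hP]; exact Real.rpow_pos_of_pos hL0 _
  have hPL : P * Real.log T = Real.log T ^ (A' + 1) := by
    rw [hP, Real.rpow_add hL0, Real.rpow_one]
  have hPLA : P * Real.log T ≤ Real.log T ^ A1 := by
    rw [hPL]
    exact Real.rpow_le_rpow_of_exponent_le hL1 hA1'
  have hkR : P * Real.log T ≤ R ^ (2 * k) := by
    refine hPLA.trans ?_
    rw [hRn]
    refine Real.rpow_le_rpow_of_exponent_le hL1 (hk.trans (le_of_eq ?_))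
    push_cast
    ring
  rw [← hRd] at hR4 ha1 ha16 hnzt
  rw [← hbd] at ha1 ha16 hnzt
  have hR0 : 0 < R := by linarith
  have ha0 : 0 < R * b := by positivity
  have hM0 : R / (R * b) = 1 / b := by field_simp
  have hW : R / (R * b) * Real.log T ^ c = R ^ 2 := by
    rw [hLc]
    field_simp
  have hLc1 : 1 ≤ Real.log T ^ c := Real.one_le_rpow hL1 hc0.le
  have h2a : 2 * (R * b) ≤ Real.log T ^ c := by
    rw [hLc, mul_comm 2 (R * b)]
    exact mul_le_mul_of_nonneg_left (le_trans (by norm_num) hR4) ha0.le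
  -- the coefficients
  obtain ⟨gp, hgp⟩ : ∃ gp : ℕ → ℝ, gp = fun n : ℕ => Gp (Bg R) (R * b) 0 (Real.log n) := ⟨_, rfl⟩
  obtain ⟨gm, hgm⟩ : ∃ gm : ℕ → ℝ, gm = fun n : ℕ => Gm (Bg R) (R * b) 0 (Real.log n) := ⟨_, rfl⟩
  have hgp0 : ∀ n, |gp n| ≤ R / (R * b) := fun n => by
    rw [hgp]
    exact Gp_abs (Bg R) R (R * b) 0 _ (Bg_le hR0.le) ha0
  have hgm0 : ∀ n, |gm n| ≤ R / (R * b) := fun n => by
    rw [hgm]
    exact Gm_abs (Bg R) R (R * b) 0 _ (Bg_le hR0.le) ha0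
  have hgpf : ∀ n : ℕ, Real.log T ^ c ≤ Real.log n → |gp n| ≤ R * Real.exp (-(Real.log n) ^ 2 / 8) :=
    fun n hn => by
      rw [hgp]
      exact Gp_far (Bg R) R (R * b) _ (Bg_le hR0.le) ha0.le (h2a.trans hn)
  have hgmf : ∀ n : ℕ, Real.log T ^ c ≤ Real.log n → |gm n| ≤ R * Real.exp (-(Real.log n) ^ 2 / 8) :=
    fun n hn => by
      rw [hgm]
      exact Gm_far (Bg R) R (R * b) _ (Bg_le hR0.le) ha0.le (h2a.trans hn)
  have hM : 0 < R ^ 4 := by positivity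
  obtain ⟨v1, v2⟩ := bad_vols cc gp (R / (R * b)) (R ^ 4) c T (XT (1 / 4) T) k hcc hgp0 (by linarith) hM
    hT.le hPc
  obtain ⟨v3, v4⟩ := bad_vols cc gm (R / (R * b)) (R ^ 4) c T (XT (1 / 4) T) k hcc hgm0 (by linarith) hM
    hT.le hPc
  have hbp := fun t => DD_bound cc gp R (R / (R * b)) (R ^ 4) c T (XT (1 / 4) T) k hcc hgp0 hgpf hR0.le hT
    hX hLc1 hcc2 hM hk1 t
  have hbm := fun t => DD_bound cc gm R (R / (R * b)) (R ^ 4) c T (XT (1 / 4) T) k hcc hgm0 hgmf hR0.le hT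
    hX hLc1 hcc2 hM hk1 t
  rw [hW] at v1 v2 v3 v4
  rw [hW] at hbp hbm
  set E1 := Bad (fA c T fun n => (b2 (XT (1 / 4) T) 0 (bb cc gp) n).re) ⌊yc c T⌋₊ k (R ^ 4) T with hE1
  set E2 := Bad (fA c T fun n => (b2 (XT (1 / 4) T) 0 (bb cc gp) n).im) ⌊yc c T⌋₊ k (R ^ 4) T with hE2
  set E3 := Bad (fA c T fun n => (b2 (XT (1 / 4) T) 0 (bb cc gm) n).re) ⌊yc c T⌋₊ k (R ^ 4) T with hE3
  set E4 := Bad (fA c T fun n => (b2 (XT (1 / 4) T) 0 (bb cc gm) n).im) ⌊yc c T⌋₊ k (R ^ 4) T with hE4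
  have hVV0 : 0 ≤ Pool.Agent.Y655.SW.VV (yc c T) := Finset.sum_nonneg fun p _ => by positivity
  have hVVR : Pool.Agent.Y655.SW.VV (yc c T) ≤ R ^ 2 := by
    rw [← hLe4]
    linarith
  have hva := vol_arith T P (Real.log T) R (Pool.Agent.Y655.SW.VV (yc c T)) k (k.factorial : ℝ) hT.le hP0 hL0 hR0 hVV0 hVVR
    (Nat.cast_nonneg _) hLk hkR
  refine ⟨(Set.Icc T (2 * T) \ G1 1 D0 T) ∪ (((E1 ∪ E2) ∪ (E3 ∪ E4)) ∪
    (Set.Icc T (T + 2 * Real.log T) ∪ Set.Icc (2 * T - 2 * Real.log T) (2 * T))), ?_, ?_, ?_, ?_⟩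
  · exact (measurableSet_Icc.diff hGm).union ((((Bad_meas _ _ _ _ _).union (Bad_meas _ _ _ _ _)).union
      ((Bad_meas _ _ _ _ _).union (Bad_meas _ _ _ _ _))).union
      (measurableSet_Icc.union measurableSet_Icc))
  · have h2L : 2 * Real.log T ≤ T := by
      have hs : 0 < Real.sqrt T := Real.sqrt_pos.2 hT
      have e1 := Real.log_le_sub_one_of_pos hs
      rw [Real.log_sqrt hT.le] at e1
      have e2 := Real.mul_self_sqrt hT.le
      have e3 := sq_nonneg (Real.sqrt T - 2)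
      have e4 : (Real.sqrt T - 2) ^ 2 = Real.sqrt T * Real.sqrt T - 4 * Real.sqrt T + 4 := by ring
      linarith only [e1, e2, e3, e4]
    refine Set.union_subset Set.sdiff_subset (Set.union_subset (Set.union_subset
      (Set.union_subset (Bad_sub _ _ _ _ _) (Bad_sub _ _ _ _ _))
      (Set.union_subset (Bad_sub _ _ _ _ _) (Bad_sub _ _ _ _ _))) (Set.union_subset ?_ ?_))
    · exact Set.Icc_subset_Icc_right (by linarith)
    · exact Set.Icc_subset_Icc_left (by linarith)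
  · have w1 : volume.real (Set.Icc T (T + 2 * Real.log T)) = 2 * Real.log T := by
      rw [Real.volume_real_Icc_of_le (by linarith)]
      ring
    have w2 : volume.real (Set.Icc (2 * T - 2 * Real.log T) (2 * T)) = 2 * Real.log T := by
      rw [Real.volume_real_Icc_of_le (by linarith)]
      ring
    have m1 := measureReal_union_le (μ := volume) (Set.Icc T (2 * T) \ G1 1 D0 T) (((E1 ∪ E2) ∪ (E3 ∪ E4)) ∪
      (Set.Icc T (T + 2 * Real.log T) ∪ Set.Icc (2 * T - 2 * Real.log T) (2 * T)))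
    have m2 := measureReal_union_le (μ := volume) ((E1 ∪ E2) ∪ (E3 ∪ E4))
      (Set.Icc T (T + 2 * Real.log T) ∪ Set.Icc (2 * T - 2 * Real.log T) (2 * T))
    have m3 := measureReal_union_le (μ := volume) (E1 ∪ E2) (E3 ∪ E4)
    have m4 := measureReal_union_le (μ := volume) E1 E2
    have m5 := measureReal_union_le (μ := volume) E3 E4
    have m6 := measureReal_union_le (μ := volume) (Set.Icc T (T + 2 * Real.log T))
      (Set.Icc (2 * T - 2 * Real.log T) (2 * T))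
    rw [w1, w2] at m6
    have q1 : T / Real.log T ^ A1 ≤ T / (8 * P) := by
      apply div_le_div_of_nonneg_left hT.le (by positivity)
      rw [mul_comm 8 P]
      exact (mul_le_mul_of_nonneg_left hL8 hP0.le).trans hPLA
    have q2 : 4 * Real.log T ≤ T / (4 * P) := by
      rw [le_div_iff₀ (by positivity)]
      rw [← hPL] at h7
      linarith
    have q3 : T / (8 * P) + 4 * (T / (16 * P)) + T / (4 * P) ≤ T / P := by
      have : T / (8 * P) + 4 * (T / (16 * P)) + T / (4 * P) = 5 / 8 * (T / P) := by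
        field_simp
        ring
      rw [this]
      have : 0 ≤ T / P := by positivity
      linarith
    rw [← hP]
    linarith
  · intro t ht htE
    simp only [Set.mem_union, not_or] at htE
    obtain ⟨n1, ⟨⟨n2, n3⟩, ⟨n4, n5⟩⟩, n6, n7⟩ := htE
    have k1 : t ∈ G1 1 D0 T := by
      by_contra hcon
      exact n1 ⟨ht, hcon⟩
    have k2 : T + 2 * Real.log T ≤ t := by
      by_contra hcon
      exact n6 ⟨ht.1, by linarith⟩
    have k3 : t ≤ 2 * T - 2 * Real.log T := by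
      by_contra hcon
      exact n7 ⟨by linarith, ht.2⟩
    have r1 := hnzt 0 (by simp) t ⟨k1, k2, k3⟩
    rw [add_zero] at r1
    have r2 := hEt (Bg R) R (R * b) (Bg_cont R) (Bg_even R) (Bg_le hR0.le) ha1 (by linarith) t 0
      (by linarith) (by linarith) le_rfl (by linarith)
    have hMu0 := Mu_nonneg (R := R) (a := R * b) (L := Real.log T) hR0.le hL0.le
    have hMu1 := Mu_le (R := R) (b := b) (L := Real.log T) hR0 hb0 hL0.le
    rw [hLb] at hMu1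
    have r3 := hbp t ht n2 n3
    have r4 := hbm t ht n4 n5
    rw [hgp] at r3
    rw [hgm] at r4
    have r5 := St_re_le cc (Bg R) (R * b) U1 U2 (Real.log T) t _ (R ^ 8) _ _ (XT (1 / 4) T) r2
      (by rw [abs_of_nonneg hMu0]; exact hMu1) r3 r4
    have r6 : C1 * (1 + |C0|) * R / (R * b) ≤ Cc * 1 := by
      rw [mul_div_assoc, hM0]
      refine mul_le_mul_of_nonneg_left ?_ hCc0
      rw [div_le_one hb0]
      exact hb1
    have r7 := fin_arith R Cc K1 (Real.log T ^ e0) hR4 hCc0 hK1 hQ1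
    have hth : 6 / Real.log T ≤ Real.log T ^ (e - 1) := by
      rw [Real.rpow_sub_one hL0.ne']
      gcongr
    have h6L : 6 / Real.log T ≤ 1 := by
      rw [div_le_one hL0]
      linarith
    have r8 := NN_le_nz (U1 := U1) (U2 := U2) (a := t - 6 / Real.log T) (b := t + 6 / Real.log T)
      (α := t - Real.log T ^ (e - 1)) (β := t + Real.log T ^ (e - 1)) (by linarith) (by linarith)
      (by linarith) (by linarith) (by linarith)
    linarith

end

end Pool.Agent.Y624.UP
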